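import Mathlib

/-!
Every real Banach space `E` is one-complemented in a space `YY E` such that operators into `YY E`
can be corrected one coordinate at a time.
-/

namespace Q88.BP

open Filter Topology

open scoped ENNReal

section Defs

variable (X Y : Type*) [NormedAddCommGroup X] [NormedSpace ℝ X] [NormedAddCommGroup Y]
  [NormedSpace ℝ Y]

/-- The pointwise Bishop-Phelps-Bollobas property of the pair `(X, Y)`. -/
def PBPB : Prop :=
  ∀ ε : ℝ, 0 < ε → ∃ η : ℝ, 0 < η ∧ ∀ T : X →L[ℝ] Y, ‖T‖ = 1 → ∀ x₀ : X, ‖x₀‖ = 1 →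
    1 - η < ‖T x₀‖ → ∃ S : X →L[ℝ] Y, ‖S‖ = 1 ∧ ‖S x₀‖ = 1 ∧ ‖S - T‖ < ε

/-- The Bishop-Phelps-Bollobas property of the pair `(X, Y)`. -/
def BPBp : Prop :=
  ∀ ε : ℝ, 0 < ε → ∃ η : ℝ, 0 < η ∧ ∀ T : X →L[ℝ] Y, ‖T‖ = 1 → ∀ x₀ : X, ‖x₀‖ = 1 →
    1 - η < ‖T x₀‖ → ∃ (S : X →L[ℝ] Y) (x : X), ‖x‖ = 1 ∧ ‖S‖ = 1 ∧ ‖S x‖ = 1 ∧
      ‖x - x₀‖ < ε ∧ ‖S - T‖ < ε

/-- functional version, fixed point -/
def FP : Prop :=
  ∀ ε : ℝ, 0 < ε → ∃ η : ℝ, 0 < η ∧ ∀ g : X →L[ℝ] ℝ, ‖g‖ ≤ 1 → ∀ x₀ : X, ‖x₀‖ = 1 →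
    1 - η < g x₀ → ∃ f : X →L[ℝ] ℝ, ‖f‖ = 1 ∧ f x₀ = 1 ∧ ‖f - g‖ < ε

/-- functional version -/
def FB : Prop :=
  ∀ ε : ℝ, 0 < ε → ∃ η : ℝ, 0 < η ∧ ∀ g : X →L[ℝ] ℝ, ‖g‖ ≤ 1 → ∀ x₀ : X, ‖x₀‖ = 1 →
    1 - η < g x₀ → ∃ (f : X →L[ℝ] ℝ) (x : X), ‖x‖ = 1 ∧ ‖f‖ = 1 ∧ f x = 1 ∧ ‖x - x₀‖ < ε ∧
      ‖f - g‖ < ε

end Defs

section Transport

variable {X Y Z : Type*} [NormedAddCommGroup X] [NormedSpace ℝ X] [NormedAddCommGroup Y]
  [NormedSpace ℝ Y] [NormedAddCommGroup Z] [NormedSpace ℝ Z]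

theorem norm_equiv_comp (e : Y ≃ₗᵢ[ℝ] Z) (T : X →L[ℝ] Y) :
    ‖(e.toLinearIsometry.toContinuousLinearMap).comp T‖ = ‖T‖ :=
  e.toLinearIsometry.norm_toContinuousLinearMap_comp

theorem PBPB.transport (e : Y ≃ₗᵢ[ℝ] Z) (h : PBPB X Z) : PBPB X Y := by
  intro ε hε
  obtain ⟨η, hη, h1⟩ := h ε hε
  refine ⟨η, hη, fun T hT x₀ hx₀ hTx => ?_⟩
  obtain ⟨S, hS1, hS2, hS3⟩ := h1 ((e.toLinearIsometry.toContinuousLinearMap).comp T)
    (by rw [norm_equiv_comp, hT]) x₀ hx₀ (by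
      change 1 - η < ‖e (T x₀)‖
      rw [e.norm_map]; exact hTx)
  refine ⟨(e.symm.toLinearIsometry.toContinuousLinearMap).comp S, by rw [norm_equiv_comp, hS1],
    ?_, ?_⟩
  · change ‖e.symm (S x₀)‖ = 1
    rw [e.symm.norm_map, hS2]
  · rw [← norm_equiv_comp e]
    refine lt_of_eq_of_lt ?_ hS3
    congr 1
    ext x
    change e (e.symm (S x) - T x) = S x - e (T x)
    rw [map_sub, e.apply_symm_apply]

theorem BPBp.transport (e : Y ≃ₗᵢ[ℝ] Z) (h : BPBp X Z) : BPBp X Y := by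
  intro ε hε
  obtain ⟨η, hη, h1⟩ := h ε hε
  refine ⟨η, hη, fun T hT x₀ hx₀ hTx => ?_⟩
  obtain ⟨S, x, hx, hS1, hS2, hxx, hS3⟩ := h1 ((e.toLinearIsometry.toContinuousLinearMap).comp T)
    (by rw [norm_equiv_comp, hT]) x₀ hx₀ (by
      change 1 - η < ‖e (T x₀)‖
      rw [e.norm_map]; exact hTx)
  refine ⟨(e.symm.toLinearIsometry.toContinuousLinearMap).comp S, x, hx,
    by rw [norm_equiv_comp, hS1], ?_, hxx, ?_⟩
  · change ‖e.symm (S x)‖ = 1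
    rw [e.symm.norm_map, hS2]
  · rw [← norm_equiv_comp e]
    refine lt_of_eq_of_lt ?_ hS3
    congr 1
    ext x
    change e (e.symm (S x) - T x) = S x - e (T x)
    rw [map_sub, e.apply_symm_apply]

end Transport

variable (E : Type*) [NormedAddCommGroup E] [NormedSpace ℝ E]

/-- index set: functionals of norm at most one, each repeated infinitely often -/
abbrev Ga : Type _ := {φ : E →L[ℝ] ℝ // ‖φ‖ ≤ 1} × ℕ

/-- bounded functions on the index set -/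
abbrev LI : Type _ := lp (fun _ : Ga E => ℝ) ∞

/-- `E + c₀(Γ)` in `ℓ_∞(Γ)` -/
def YY : Submodule ℝ (E × LI E) where
  carrier := {p | Tendsto (fun γ : Ga E => p.2 γ - γ.1.1 p.1) cofinite (𝓝 0)}
  add_mem' := by
    intro p q hp hq
    have h := Tendsto.add hp hq
    rw [add_zero] at h
    refine h.congr fun γ => ?_
    change p.2 γ - γ.1.1 p.1 + (q.2 γ - γ.1.1 q.1) = (p.2 γ + q.2 γ) - γ.1.1 (p.1 + q.1)
    rw [map_add]; ring
  zero_mem' := by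
    refine tendsto_const_nhds.congr fun γ => ?_
    change (0 : ℝ) = 0 - γ.1.1 0
    simp
  smul_mem' := by
    intro c p hp
    have h := Tendsto.const_mul c hp
    rw [mul_zero] at h
    refine h.congr fun γ => ?_
    change c * (p.2 γ - γ.1.1 p.1) = c * p.2 γ - γ.1.1 (c • p.1)
    rw [map_smul, smul_eq_mul]; ring

variable {E}

theorem coord_le (F : LI E) (γ : Ga E) : |F γ| ≤ ‖F‖ := lp.norm_apply_le_norm (by simp) F γ

theorem fst_le {p : E × LI E} (hp : p ∈ YY E) : ‖p.1‖ ≤ ‖p.2‖ := by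
  obtain ⟨φ, h1, h2⟩ := exists_dual_vector'' ℝ p.1
  have h3 : Tendsto (fun n : ℕ => ((⟨φ, h1⟩, n) : Ga E)) atTop cofinite := by
    rw [← Nat.cofinite_eq_atTop]
    exact Function.Injective.tendsto_cofinite fun a b hab => (Prod.ext_iff.1 hab).2
  have h4 : Tendsto (fun n : ℕ => p.2 (⟨φ, h1⟩, n) - φ p.1) atTop (𝓝 0) := Tendsto.comp hp h3
  have h5 : Tendsto (fun n : ℕ => p.2 (⟨φ, h1⟩, n)) atTop (𝓝 (φ p.1)) := by
    have := h4.add_const (φ p.1)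
    simpa using this
  have h6 : |φ p.1| ≤ ‖p.2‖ := by
    refine le_of_tendsto h5.abs (Eventually.of_forall fun n => coord_le p.2 _)
  have h7 : φ p.1 = ‖p.1‖ := h2
  rw [h7, abs_of_nonneg (norm_nonneg _)] at h6
  exact h6

theorem norm_YY (p : YY E) : ‖p‖ = ‖(p : E × LI E).2‖ := by
  change ‖(p : E × LI E)‖ = _
  rw [Prod.norm_def]
  exact max_eq_right (fst_le p.2)

theorem closed_YY : IsClosed (YY E : Set (E × LI E)) := by
  refine isClosed_of_closure_subset fun p hp => ?_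
  change Tendsto (fun γ : Ga E => p.2 γ - γ.1.1 p.1) cofinite (𝓝 0)
  rw [Metric.tendsto_nhds]
  intro δ hδ
  obtain ⟨q, hq, hpq⟩ := Metric.mem_closure_iff.1 hp (δ / 3) (by positivity)
  have h1 := Metric.tendsto_nhds.1 (show Tendsto (fun γ : Ga E => q.2 γ - γ.1.1 q.1) cofinite (𝓝 0)
    from hq) (δ / 3) (by positivity)
  filter_upwards [h1] with γ hγ
  rw [Real.dist_eq, sub_zero] at hγ ⊢
  rw [dist_eq_norm, Prod.norm_def] at hpq
  have h2 : ‖p.1 - q.1‖ < δ / 3 := (le_max_left _ _).trans_lt hpq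
  have h3 : ‖p.2 - q.2‖ < δ / 3 := (le_max_right _ _).trans_lt hpq
  have h4 : |p.2 γ - q.2 γ| < δ / 3 := (coord_le (p.2 - q.2) γ).trans_lt h3
  have h5 : |γ.1.1 (p.1 - q.1)| < δ / 3 := by
    have := γ.1.1.le_opNorm (p.1 - q.1)
    rw [Real.norm_eq_abs] at this
    refine this.trans_lt ?_
    have h6 : ‖γ.1.1‖ * ‖p.1 - q.1‖ ≤ 1 * ‖p.1 - q.1‖ := by
      gcongr
      exact γ.1.2
    linarith
  rw [map_sub] at h5
  have e : p.2 γ - γ.1.1 p.1 = (q.2 γ - γ.1.1 q.1) + (p.2 γ - q.2 γ) -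
    (γ.1.1 p.1 - γ.1.1 q.1) := by ring
  rw [e]
  calc |q.2 γ - γ.1.1 q.1 + (p.2 γ - q.2 γ) - (γ.1.1 p.1 - γ.1.1 q.1)|
      ≤ |q.2 γ - γ.1.1 q.1 + (p.2 γ - q.2 γ)| + |γ.1.1 p.1 - γ.1.1 q.1| := abs_sub _ _
    _ ≤ |q.2 γ - γ.1.1 q.1| + |p.2 γ - q.2 γ| + |γ.1.1 p.1 - γ.1.1 q.1| := by
        gcongr; exact abs_add_le _ _
    _ < δ := by linarith

instance [CompleteSpace E] : CompleteSpace (YY E) :=
  closed_YY.completeSpace_coe

/-- the point evaluations -/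
theorem memlp_hat (y : E) : Memℓp (fun γ : Ga E => γ.1.1 y) ∞ := by
  rw [memℓp_infty_iff]
  refine ⟨‖y‖, ?_⟩
  rintro _ ⟨γ, rfl⟩
  refine (γ.1.1.le_opNorm y).trans ?_
  calc ‖γ.1.1‖ * ‖y‖ ≤ 1 * ‖y‖ := by
        gcongr
        exact γ.1.2
    _ = ‖y‖ := one_mul _

noncomputable def hat (y : E) : LI E := ⟨fun γ => γ.1.1 y, memlp_hat y⟩

theorem norm_hat_le (y : E) : ‖hat y‖ ≤ ‖y‖ := by
  refine lp.norm_le_of_forall_le (norm_nonneg _) fun γ => ?_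
  refine (γ.1.1.le_opNorm y).trans ?_
  calc ‖γ.1.1‖ * ‖y‖ ≤ 1 * ‖y‖ := by
        gcongr
        exact γ.1.2
    _ = ‖y‖ := one_mul _

theorem hat_mem (y : E) : ((y, hat y) : E × LI E) ∈ YY E := by
  refine tendsto_const_nhds.congr fun γ => ?_
  change (0 : ℝ) = γ.1.1 y - γ.1.1 y
  simp

/-- the embedding of `E` -/
noncomputable def emb : E →ₗᵢ[ℝ] YY E where
  toFun y := ⟨(y, hat y), hat_mem y⟩
  map_add' y z := by
    apply Subtype.ext
    refine Prod.ext rfl ?_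
    refine lp.ext (funext fun γ => ?_)
    exact map_add γ.1.1 y z
  map_smul' c y := by
    apply Subtype.ext
    refine Prod.ext rfl ?_
    refine lp.ext (funext fun γ => ?_)
    exact map_smul γ.1.1 c y
  norm_map' y := by
    change ‖((y, hat y) : E × LI E)‖ = ‖y‖
    rw [Prod.norm_def]
    exact max_eq_left (norm_hat_le y)

/-- the projection onto `E` -/
noncomputable def proj : YY E →L[ℝ] YY E :=
  (emb (E := E)).toContinuousLinearMap.comp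
    ((ContinuousLinearMap.fst ℝ E (LI E)).comp (YY E).subtypeL)

theorem proj_apply (p : YY E) : proj p = emb (p : E × LI E).1 := rfl

theorem proj_emb (y : E) : proj (emb y) = emb y := rfl

theorem range_proj : LinearMap.range (proj (E := E)).toLinearMap =
    LinearMap.range (emb (E := E)).toLinearMap := by
  ext p
  constructor
  · rintro ⟨q, rfl⟩
    exact ⟨_, rfl⟩
  · rintro ⟨y, rfl⟩
    exact ⟨emb y, rfl⟩

theorem norm_proj_le : ‖proj (E := E)‖ ≤ 1 := by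
  refine ContinuousLinearMap.opNorm_le_bound _ zero_le_one fun p => ?_
  rw [proj_apply, LinearIsometry.norm_map, one_mul]
  change ‖(p : E × LI E).1‖ ≤ ‖(p : E × LI E)‖
  rw [Prod.norm_def]
  exact le_max_left _ _

theorem norm_proj [Nontrivial E] : ‖proj (E := E)‖ = 1 := by
  refine le_antisymm norm_proj_le ?_
  obtain ⟨y, hy⟩ := exists_ne (0 : E)
  have h1 := (proj (E := E)).le_opNorm (emb y)
  rw [proj_emb, LinearIsometry.norm_map] at h1
  have hy0 : 0 < ‖y‖ := norm_pos_iff.2 hy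
  by_contra hcon
  push Not at hcon
  nlinarith

open Classical in
theorem memlp_un (γ : Ga E) : Memℓp (fun γ' : Ga E => if γ' = γ then (1 : ℝ) else 0) ∞ := by
  rw [memℓp_infty_iff]
  refine ⟨1, ?_⟩
  rintro _ ⟨γ', rfl⟩
  by_cases h : γ' = γ <;> simp [h]

open Classical in
/-- the unit vectors -/
noncomputable def un (γ : Ga E) : LI E :=
  ⟨fun γ' => if γ' = γ then 1 else 0, memlp_un γ⟩

open Classical in
theorem un_self (γ : Ga E) : un γ γ = 1 := by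
  change (if γ = γ then (1 : ℝ) else 0) = 1
  simp

open Classical in
theorem un_ne {γ γ' : Ga E} (h : γ' ≠ γ) : un γ γ' = 0 := by
  change (if γ' = γ then (1 : ℝ) else 0) = 0
  simp [h]

theorem norm_un_le (γ : Ga E) : ‖un γ‖ ≤ 1 := by
  refine lp.norm_le_of_forall_le zero_le_one fun γ' => ?_
  by_cases h : γ' = γ
  · rw [h, un_self]; simp
  · rw [un_ne h]; simp

noncomputable def ee (γ : Ga E) : YY E :=
  ⟨(0, un γ), by
    refine tendsto_const_nhds.congr' ?_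
    have h1 : ∀ᶠ γ' : Ga E in cofinite, γ' ≠ γ := by
      rw [eventually_cofinite]
      simp
    filter_upwards [h1] with γ' h
    change (0 : ℝ) = un γ γ' - γ'.1.1 0
    rw [un_ne h, map_zero, sub_zero]⟩

theorem norm_ee_le (γ : Ga E) : ‖ee γ‖ ≤ 1 := by
  rw [norm_YY]
  exact norm_un_le γ

variable {X : Type*} [NormedAddCommGroup X] [NormedSpace ℝ X]

/-- the coordinate functional `γ` of an operator -/
noncomputable def cf (T : X →L[ℝ] YY E) (γ : Ga E) : X →L[ℝ] ℝ :=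
  (lp.evalCLM ℝ (fun _ : Ga E => ℝ) ∞ γ).comp
    ((ContinuousLinearMap.snd ℝ E (LI E)).comp ((YY E).subtypeL.comp T))

theorem cf_apply (T : X →L[ℝ] YY E) (γ : Ga E) (x : X) :
    cf T γ x = ((T x : YY E) : E × LI E).2 γ := rfl

theorem cf_le (T : X →L[ℝ] YY E) (hT : ‖T‖ = 1) (γ : Ga E) : ‖cf T γ‖ ≤ 1 := by
  refine ContinuousLinearMap.opNorm_le_bound _ zero_le_one fun x => ?_
  rw [cf_apply]
  refine (coord_le _ γ).trans ?_
  rw [← norm_YY]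
  have := T.le_opNorm x
  rwa [hT] at this

/-- the correction in the coordinate `γ` -/
theorem correct (T : X →L[ℝ] YY E) (hT : ‖T‖ = 1) (γ : Ga E) (σ : ℝ) (hσ : σ * σ = 1)
    (f : X →L[ℝ] ℝ) (hf : ‖f‖ = 1) (x : X) (hx : ‖x‖ = 1) (hfx : f x = 1) :
    ∃ S : X →L[ℝ] YY E, ‖S‖ = 1 ∧ ‖S x‖ = 1 ∧ ‖S - T‖ ≤ ‖f - σ • cf T γ‖ := by
  have hσ1 : |σ| = 1 := by
    have : |σ| * |σ| = 1 := by rw [← abs_mul, hσ, abs_one]
    nlinarith [abs_nonneg σ]
  set h : X →L[ℝ] ℝ := σ • (f - σ • cf T γ) with hh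
  set S : X →L[ℝ] YY E := T + h.smulRight (ee γ) with hS
  have hSx : ∀ z, S z = T z + h z • ee γ := fun z => rfl
  have hc1 : ∀ z, ((S z : YY E) : E × LI E).2 γ = σ * f z := by
    intro z
    have e1 : ((S z : YY E) : E × LI E).2 γ = ((T z : YY E) : E × LI E).2 γ +
      h z * un γ γ := rfl
    have e2 : h z = σ * (f z - σ * ((T z : YY E) : E × LI E).2 γ) := rfl
    rw [e1, e2, un_self]
    linear_combination (-((T z : YY E) : E × LI E).2 γ) * hσ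
  have hc2 : ∀ z γ', γ' ≠ γ → ((S z : YY E) : E × LI E).2 γ' =
      ((T z : YY E) : E × LI E).2 γ' := by
    intro z γ' hγ'
    have e1 : ((S z : YY E) : E × LI E).2 γ' = ((T z : YY E) : E × LI E).2 γ' +
      h z * un γ γ' := rfl
    rw [e1, un_ne hγ', mul_zero, add_zero]
  have hSle : ‖S‖ ≤ 1 := by
    refine ContinuousLinearMap.opNorm_le_bound _ zero_le_one fun z => ?_
    rw [one_mul, norm_YY]
    refine lp.norm_le_of_forall_le (norm_nonneg _) fun γ' => ?_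
    by_cases hγ' : γ' = γ
    · rw [hγ', hc1, norm_mul, Real.norm_eq_abs σ, hσ1, one_mul]
      have := f.le_opNorm z
      rwa [hf, one_mul] at this
    · rw [hc2 z γ' hγ']
      have := cf_le T hT γ'
      have h2 := (cf T γ').le_opNorm z
      rw [cf_apply] at h2
      refine h2.trans ?_
      calc ‖cf T γ'‖ * ‖z‖ ≤ 1 * ‖z‖ := by gcongr
        _ = ‖z‖ := one_mul _
  have hSx1 : 1 ≤ ‖S x‖ := by
    rw [norm_YY]
    have := coord_le ((S x : YY E) : E × LI E).2 γ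
    rw [hc1, hfx, mul_one, hσ1] at this
    exact this
  have h3 : ‖S x‖ ≤ ‖S‖ := by
    have := S.le_opNorm x
    rwa [hx, mul_one] at this
  refine ⟨S, le_antisymm hSle (hSx1.trans h3), le_antisymm (h3.trans hSle) hSx1, ?_⟩
  have h4 : S - T = h.smulRight (ee γ) := by rw [hS]; abel
  rw [h4]
  refine ContinuousLinearMap.opNorm_le_bound _ (norm_nonneg _) fun z => ?_
  change ‖h z • ee γ‖ ≤ _
  rw [norm_smul]
  calc ‖h z‖ * ‖ee γ‖ ≤ ‖h z‖ * 1 := by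
        gcongr
        exact norm_ee_le γ
    _ = ‖h z‖ := mul_one _
    _ ≤ ‖h‖ * ‖z‖ := h.le_opNorm z
    _ = ‖f - σ • cf T γ‖ * ‖z‖ := by rw [hh, norm_smul, Real.norm_eq_abs, hσ1, one_mul]

theorem exists_coord (T : X →L[ℝ] YY E) (x : X) {c : ℝ} (hc : 0 ≤ c) (h : c < ‖T x‖) :
    ∃ (γ : Ga E) (σ : ℝ), σ * σ = 1 ∧ c < (σ • cf T γ) x := by
  rw [norm_YY] at h
  have : ∃ γ : Ga E, c < |((T x : YY E) : E × LI E).2 γ| := by
    by_contra hcon
    push Not at hcon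
    exact absurd (lp.norm_le_of_forall_le hc hcon) (not_le.2 h)
  obtain ⟨γ, hγ⟩ := this
  rcases le_total 0 (((T x : YY E) : E × LI E).2 γ) with h0 | h0
  · refine ⟨γ, 1, by norm_num, ?_⟩
    rw [abs_of_nonneg h0] at hγ
    rw [one_smul, cf_apply]
    exact hγ
  · refine ⟨γ, -1, by norm_num, ?_⟩
    rw [abs_of_nonpos h0] at hγ
    change c < -1 * cf T γ x
    rw [cf_apply]
    linarith

theorem pbpb_YY (hX : FP X) : PBPB X (YY E) := by
  intro ε hε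
  obtain ⟨η, hη, h1⟩ := hX ε hε
  refine ⟨min η 1, lt_min hη one_pos, fun T hT x₀ hx₀ hTx => ?_⟩
  obtain ⟨γ, σ, hσ, h2⟩ := exists_coord T x₀ (c := 1 - min η 1)
    (by have := min_le_right η 1; linarith) hTx
  have h3 : ‖σ • cf T γ‖ ≤ 1 := by
    have hσ1 : |σ| = 1 := by
      have : |σ| * |σ| = 1 := by rw [← abs_mul, hσ, abs_one]
      nlinarith [abs_nonneg σ]
    rw [norm_smul, Real.norm_eq_abs, hσ1, one_mul]
    exact cf_le T hT γ
  obtain ⟨f, hf1, hf2, hf3⟩ := h1 (σ • cf T γ) h3 x₀ hx₀ (by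
    have := min_le_left η 1; linarith)
  obtain ⟨S, hS1, hS2, hS3⟩ := correct T hT γ σ hσ f hf1 x₀ hx₀ hf2
  exact ⟨S, hS1, hS2, hS3.trans_lt hf3⟩

theorem bpbp_YY (hX : FB X) : BPBp X (YY E) := by
  intro ε hε
  obtain ⟨η, hη, h1⟩ := hX ε hε
  refine ⟨min η 1, lt_min hη one_pos, fun T hT x₀ hx₀ hTx => ?_⟩
  obtain ⟨γ, σ, hσ, h2⟩ := exists_coord T x₀ (c := 1 - min η 1)
    (by have := min_le_right η 1; linarith) hTx
  have h3 : ‖σ • cf T γ‖ ≤ 1 := by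
    have hσ1 : |σ| = 1 := by
      have : |σ| * |σ| = 1 := by rw [← abs_mul, hσ, abs_one]
      nlinarith [abs_nonneg σ]
    rw [norm_smul, Real.norm_eq_abs, hσ1, one_mul]
    exact cf_le T hT γ
  obtain ⟨f, x, hx, hf1, hf2, hxx, hf3⟩ := h1 (σ • cf T γ) h3 x₀ hx₀ (by
    have := min_le_left η 1; linarith)
  obtain ⟨S, hS1, hS2, hS3⟩ := correct T hT γ σ hσ f hf1 x hx hf2
  exact ⟨S, x, hx, hS1, hS2, hxx, hS3.trans_lt hf3⟩

end Q88.BP
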