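import Pool.Agent.Q88.BP.Env

/-!
The functional versions in finite dimension, and a target space for which both properties fail.
-/

namespace Q88.BP

open Filter Topology

section FinDim

variable {X : Type*} [NormedAddCommGroup X] [NormedSpace ℝ X] [FiniteDimensional ℝ X]

theorem fin_seq (P : (X →L[ℝ] ℝ) → X → Prop)
    (h : ∀ (g : ℕ → X →L[ℝ] ℝ) (x : ℕ → X) (g' : X →L[ℝ] ℝ) (x' : X), (∀ n, ‖g n‖ ≤ 1) →
      (∀ n, ‖x n‖ = 1) → Tendsto g atTop (𝓝 g') → Tendsto x atTop (𝓝 x') → ‖g'‖ ≤ 1 → ‖x'‖ = 1 →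
      g' x' = 1 → ∃ n, P (g n) (x n)) :
    ∃ η : ℝ, 0 < η ∧ ∀ g : X →L[ℝ] ℝ, ‖g‖ ≤ 1 → ∀ x₀ : X, ‖x₀‖ = 1 → 1 - η < g x₀ → P g x₀ := by
  by_contra hcon
  push Not at hcon
  choose g hg x hx hgx hP using fun n : ℕ => hcon (1 / ((n : ℝ) + 1)) (by positivity)
  have hK : IsCompact ((Metric.closedBall (0 : X →L[ℝ] ℝ) 1) ×ˢ (Metric.sphere (0 : X) 1)) :=
    (isCompact_closedBall _ _).prod (isCompact_sphere _ _)
  obtain ⟨p, hp, φ, hφ, hlim⟩ := hK.tendsto_subseq (x := fun n => (g n, x n)) (fun n => by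
    constructor
    · simpa using hg n
    · simpa using hx n)
  have h1 : Tendsto (fun n => g (φ n)) atTop (𝓝 p.1) :=
    (continuous_fst.tendsto p).comp hlim
  have h2 : Tendsto (fun n => x (φ n)) atTop (𝓝 p.2) :=
    (continuous_snd.tendsto p).comp hlim
  have h3 : ‖p.1‖ ≤ 1 := by simpa using hp.1
  have h4 : ‖p.2‖ = 1 := by simpa using hp.2
  have h5 : Tendsto (fun n => g (φ n) (x (φ n))) atTop (𝓝 (p.1 p.2)) := by
    have h6 : Continuous fun q : (X →L[ℝ] ℝ) × X => q.1 q.2 :=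
      isBoundedBilinearMap_apply.continuous
    exact (h6.tendsto p).comp hlim
  have h7 : p.1 p.2 = 1 := by
    apply le_antisymm
    · have := p.1.le_opNorm p.2
      rw [h4, mul_one, Real.norm_eq_abs] at this
      exact (le_abs_self _).trans (this.trans h3)
    · have h8 : Tendsto (fun n => 1 - 1 / (((φ n : ℕ) : ℝ) + 1)) atTop (𝓝 (1 - 0)) := by
        refine tendsto_const_nhds.sub ?_
        exact tendsto_one_div_add_atTop_nhds_zero_nat.comp hφ.tendsto_atTop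
      rw [sub_zero] at h8
      exact le_of_tendsto_of_tendsto' h8 h5 fun n => (hgx (φ n)).le
  obtain ⟨n, hn⟩ := h (fun n => g (φ n)) (fun n => x (φ n)) p.1 p.2 (fun n => hg _) (fun n => hx _)
    h1 h2 h3 h4 h7
  exact hP (φ n) hn

omit [FiniteDimensional ℝ X] in
theorem norm_eq_one_of {f : X →L[ℝ] ℝ} {x : X} (hf : ‖f‖ ≤ 1) (hx : ‖x‖ = 1) (h : f x = 1) :
    ‖f‖ = 1 := by
  refine le_antisymm hf ?_
  have := f.le_opNorm x
  rw [h, hx, mul_one, norm_one] at this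
  exact this

/-- Bishop-Phelps-Bollobas for functionals in finite dimension. -/
theorem fb_fin : FB X := by
  intro ε hε
  refine fin_seq _ ?_
  intro g x g' x' hg hx hgl hxl hg' hx' hgx
  have h1 : ∀ᶠ n in atTop, ‖x' - x n‖ < ε := by
    have := (tendsto_iff_norm_sub_tendsto_zero.1 hxl).eventually_lt_const hε
    filter_upwards [this] with n hn
    rwa [norm_sub_rev]
  have h2 : ∀ᶠ n in atTop, ‖g' - g n‖ < ε := by
    have := (tendsto_iff_norm_sub_tendsto_zero.1 hgl).eventually_lt_const hε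
    filter_upwards [this] with n hn
    rwa [norm_sub_rev]
  obtain ⟨n, hn1, hn2⟩ := (h1.and h2).exists
  exact ⟨n, g', x', hx', norm_eq_one_of hg' hx' hgx, hgx, hn1, hn2⟩

/-- The pointwise version for functionals on finite-dimensional smooth spaces. -/
theorem fp_fin (hs : ∀ x : X, ‖x‖ = 1 → ∀ f g : X →L[ℝ] ℝ, ‖f‖ ≤ 1 → ‖g‖ ≤ 1 → f x = 1 → g x = 1 →
    f = g) : FP X := by
  intro ε hε
  refine fin_seq _ ?_
  intro g x g' x' hg hx hgl hxl hg' hx' hgx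
  have hsup : ∀ n, ∃ f : X →L[ℝ] ℝ, ‖f‖ ≤ 1 ∧ f (x n) = 1 := by
    intro n
    obtain ⟨f, h1, h2⟩ := exists_dual_vector'' ℝ (x n)
    refine ⟨f, h1, ?_⟩
    rw [h2, hx n]; rfl
  choose f hf1 hf2 using hsup
  obtain ⟨f', hf', φ, hφ, hlim⟩ := (isCompact_closedBall (0 : X →L[ℝ] ℝ) 1).tendsto_subseq
    (x := f) (fun n => by simpa using hf1 n)
  have h1 : f' x' = 1 := by
    have h5 : Tendsto (fun n => f (φ n) (x (φ n))) atTop (𝓝 (f' x')) := by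
      have h6 : Continuous fun q : (X →L[ℝ] ℝ) × X => q.1 q.2 :=
        isBoundedBilinearMap_apply.continuous
      exact (h6.tendsto (f', x')).comp (hlim.prodMk_nhds (hxl.comp hφ.tendsto_atTop))
    simp only [hf2] at h5
    exact (tendsto_nhds_unique h5 tendsto_const_nhds)
  have h2 : f' = g' := hs x' hx' f' g' (by simpa using hf') hg' h1 hgx
  have h3 : Tendsto (fun n => ‖f (φ n) - g (φ n)‖) atTop (𝓝 0) := by
    have h4 := (hlim.sub (hgl.comp hφ.tendsto_atTop)).norm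
    rw [h2, sub_self, norm_zero] at h4
    exact h4
  obtain ⟨n, hn⟩ := (h3.eventually_lt_const hε).exists
  exact ⟨φ n, f (φ n), norm_eq_one_of (hf1 _) (hx _) (hf2 _), hf2 _, hn⟩

end FinDim

/-! ### the bad target space -/

section Bad

variable {X H : Type*} [NormedAddCommGroup X] [NormedSpace ℝ X] [NormedAddCommGroup H]
  [InnerProductSpace ℝ H]

noncomputable abbrev WW (X H : Type*) [NormedAddCommGroup X] [NormedSpace ℝ X] [NormedAddCommGroup H]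
    [InnerProductSpace ℝ H] := lp (fun _ : ℕ => WithLp 2 (X × H)) 2

theorem WW_hasSum (w : WW X H) : HasSum (fun n => ‖w n‖ ^ 2) (‖w‖ ^ 2) := by
  have := lp.hasSum_norm (p := 2) (by norm_num) w
  simpa using this

omit [NormedSpace ℝ X] [InnerProductSpace ℝ H] in
theorem prod_sq (p : WithLp 2 (X × H)) : ‖p‖ ^ 2 = ‖p.fst‖ ^ 2 + ‖p.snd‖ ^ 2 :=
  WithLp.prod_norm_sq_eq_of_L2 p

theorem prod_ineq (a b : WithLp 2 (X × H)) :
    2 * ‖a‖ ^ 2 + 2 * ‖b.snd‖ ^ 2 ≤ ‖a + b‖ ^ 2 + ‖a - b‖ ^ 2 := by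
  rw [prod_sq, prod_sq, prod_sq]
  have h1 : ‖(a + b).snd‖ ^ 2 + ‖(a - b).snd‖ ^ 2 = 2 * (‖a.snd‖ ^ 2 + ‖b.snd‖ ^ 2) := by
    have := parallelogram_law_with_norm ℝ a.snd b.snd
    change ‖a.snd + b.snd‖ ^ 2 + ‖a.snd - b.snd‖ ^ 2 = _
    nlinarith
  have h2 : 2 * ‖a.fst‖ ^ 2 ≤ ‖(a + b).fst‖ ^ 2 + ‖(a - b).fst‖ ^ 2 := by
    change _ ≤ ‖a.fst + b.fst‖ ^ 2 + ‖a.fst - b.fst‖ ^ 2
    have h3 : 2 * ‖a.fst‖ ≤ ‖a.fst + b.fst‖ + ‖a.fst - b.fst‖ := by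
      have e : (2 : ℝ) • a.fst = (a.fst + b.fst) + (a.fst - b.fst) := by
        rw [two_smul]; abel
      have := norm_add_le (a.fst + b.fst) (a.fst - b.fst)
      rw [← e, norm_smul] at this
      simpa using this
    nlinarith [sq_nonneg (‖a.fst + b.fst‖ - ‖a.fst - b.fst‖), norm_nonneg a.fst,
      norm_nonneg (a.fst + b.fst), norm_nonneg (a.fst - b.fst)]
  linarith

theorem WW_ineq (u v : WW X H) (n : ℕ) :
    2 * ‖u‖ ^ 2 + 2 * ‖(v n).snd‖ ^ 2 ≤ ‖u + v‖ ^ 2 + ‖u - v‖ ^ 2 := by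
  have h1 : HasSum (fun k => ‖(u + v) k‖ ^ 2 + ‖(u - v) k‖ ^ 2 - 2 * ‖u k‖ ^ 2)
      (‖u + v‖ ^ 2 + ‖u - v‖ ^ 2 - 2 * ‖u‖ ^ 2) :=
    ((WW_hasSum (u + v)).add (WW_hasSum (u - v))).sub ((WW_hasSum u).mul_left 2)
  have h2 : ∀ k, 2 * ‖(v k).snd‖ ^ 2 ≤ ‖(u + v) k‖ ^ 2 + ‖(u - v) k‖ ^ 2 - 2 * ‖u k‖ ^ 2 := by
    intro k
    have := prod_ineq (u k) (v k)
    change _ ≤ ‖u k + v k‖ ^ 2 + ‖u k - v k‖ ^ 2 - 2 * ‖u k‖ ^ 2
    linarith
  have h3 := le_hasSum h1 n fun k _ => (by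
    have := h2 k
    have h4 : 0 ≤ 2 * ‖(v k).snd‖ ^ 2 := by positivity
    linarith)
  have := h2 n
  linarith

/-- The space: `ℓ_2`-sum of the spaces `X` with norm `‖x‖² + 4^{-n} ‖ι x‖²`. -/
def BB (ι : X →L[ℝ] H) : Submodule ℝ (WW X H) where
  carrier := {w | ∀ n, (w n).snd = ((2 : ℝ) ^ n)⁻¹ • ι (w n).fst}
  add_mem' := by
    intro u v hu hv n
    have h1 := hu n
    have h2 := hv n
    change (u n).snd + (v n).snd = ((2 : ℝ) ^ n)⁻¹ • ι ((u n).fst + (v n).fst)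
    rw [map_add, smul_add, h1, h2]
  zero_mem' := by
    intro n
    change (0 : H) = ((2 : ℝ) ^ n)⁻¹ • ι (0 : X)
    simp
  smul_mem' := by
    intro c u hu n
    have h1 := hu n
    change c • (u n).snd = ((2 : ℝ) ^ n)⁻¹ • ι (c • (u n).fst)
    rw [map_smul, h1, smul_comm]

theorem BB_closed (ι : X →L[ℝ] H) : IsClosed (BB ι : Set (WW X H)) := by
  have : (BB ι : Set (WW X H)) = ⋂ n, {w | (w n).snd = ((2 : ℝ) ^ n)⁻¹ • ι (w n).fst} := by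
    ext w
    simp only [Set.mem_iInter, Set.mem_ofPred_eq]
    rfl
  rw [this]
  refine isClosed_iInter fun n => ?_
  have hc : Continuous fun w : WW X H => (w n : WithLp 2 (X × H)) :=
    (lp.evalCLM ℝ (fun _ : ℕ => WithLp 2 (X × H)) 2 n).continuous
  have h1 : Continuous fun w : WW X H => (w n).snd :=
    (WithLp.sndL (p := 2) (𝕜 := ℝ) (α := X) (β := H)).continuous.comp hc
  have h2 : Continuous fun w : WW X H => (w n).fst :=
    (WithLp.fstL (p := 2) (𝕜 := ℝ) (α := X) (β := H)).continuous.comp hc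
  exact isClosed_eq h1 ((ι.continuous.comp h2).const_smul _)

instance [CompleteSpace X] [CompleteSpace H] (ι : X →L[ℝ] H) : CompleteSpace (BB ι) :=
  (BB_closed ι).completeSpace_coe

theorem BB_eq_zero {ι : X →L[ℝ] H} (hι : Function.Injective ι) (w : BB ι)
    (h : ∀ n, ((w : WW X H) n).snd = 0) : w = 0 := by
  apply Subtype.ext
  refine lp.ext (funext fun n => ?_)
  have h1 := w.2 n
  rw [h n] at h1
  have h2 : ι ((w : WW X H) n).fst = 0 := by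
    have h3 : ((2 : ℝ) ^ n)⁻¹ ≠ 0 := by positivity
    exact (smul_eq_zero.1 h1.symm).resolve_left h3
  have h4 : ((w : WW X H) n).fst = 0 := hι (by rw [h2, map_zero])
  apply WithLp.ofLp_injective
  exact Prod.ext h4 (h n)

/-- flat directions are killed by operators which attain their norm -/
theorem kill {ι : X →L[ℝ] H} (hι : Function.Injective ι) (S : X →L[ℝ] BB ι) (hS : ‖S‖ = 1) (x h : X)
    (hSx : ‖S x‖ = 1) (hflat : ∃ δ : ℝ, 0 < δ ∧ ∀ t : ℝ, 0 < t → t < δ →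
      ‖x + t • h‖ ^ 2 + ‖x - t • h‖ ^ 2 ≤ 2 + t ^ 3) : S h = 0 := by
  obtain ⟨δ, hδ, hf⟩ := hflat
  refine BB_eq_zero hι _ fun n => ?_
  set a := ‖((S h : WW X H) n).snd‖ ^ 2 with ha
  have key : ∀ t : ℝ, 0 < t → t < δ → 2 * a ≤ t := by
    intro t ht0 ht
    have h1 := WW_ineq (S x : WW X H) (t • (S h : WW X H)) n
    have e1 : ((t • (S h : WW X H)) n).snd = t • ((S h : WW X H) n).snd := rfl
    have e2 : (S x : WW X H) + t • (S h : WW X H) = ((S (x + t • h) : BB ι) : WW X H) := by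
      rw [map_add, map_smul]; rfl
    have e3 : (S x : WW X H) - t • (S h : WW X H) = ((S (x - t • h) : BB ι) : WW X H) := by
      rw [map_sub, map_smul]; rfl
    rw [e1, e2, e3, norm_smul, mul_pow, ← ha, Real.norm_eq_abs, sq_abs] at h1
    have h2 : ‖((S x : BB ι) : WW X H)‖ = 1 := hSx
    have h3 : ‖((S (x + t • h) : BB ι) : WW X H)‖ ≤ ‖x + t • h‖ := by
      have := S.le_opNorm (x + t • h)
      rw [hS, one_mul] at this
      exact this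
    have h4 : ‖((S (x - t • h) : BB ι) : WW X H)‖ ≤ ‖x - t • h‖ := by
      have := S.le_opNorm (x - t • h)
      rw [hS, one_mul] at this
      exact this
    have h5 : ‖((S (x + t • h) : BB ι) : WW X H)‖ ^ 2 ≤ ‖x + t • h‖ ^ 2 := by gcongr
    have h6 : ‖((S (x - t • h) : BB ι) : WW X H)‖ ^ 2 ≤ ‖x - t • h‖ ^ 2 := by gcongr
    have h7 := hf t ht0 ht
    rw [h2] at h1
    have h8 : t ^ 2 * (2 * a) ≤ t ^ 2 * t := by nlinarith
    exact le_of_mul_le_mul_left h8 (by positivity)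
  have ha0 : a ≤ 0 := by
    by_contra hcon
    push Not at hcon
    have h1 : 0 < min a (δ / 2) := lt_min hcon (by positivity)
    have h2 := key (min a (δ / 2)) h1 ((min_le_right _ _).trans_lt (by linarith))
    have h3 := min_le_left a (δ / 2)
    linarith
  have : ‖((S h : WW X H) n).snd‖ = 0 := by
    have h1 : 0 ≤ ‖((S h : WW X H) n).snd‖ := norm_nonneg _
    nlinarith
  exact norm_eq_zero.1 this

/-- the embeddings -/
noncomputable def TT (ι : X →L[ℝ] H) (n : ℕ) : X →ₗ[ℝ] BB ι where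
  toFun x := ⟨lp.single 2 n (WithLp.toLp 2 (x, ((2 : ℝ) ^ n)⁻¹ • ι x)), by
    intro k
    by_cases hk : k = n
    · subst hk
      simp
    · simp [lp.single_apply, Pi.single_eq_of_ne hk]⟩
  map_add' x y := by
    apply Subtype.ext
    have e : (WithLp.toLp 2 (x + y, ((2 : ℝ) ^ n)⁻¹ • ι (x + y)) : WithLp 2 (X × H)) =
        WithLp.toLp 2 (x, ((2 : ℝ) ^ n)⁻¹ • ι x) + WithLp.toLp 2 (y, ((2 : ℝ) ^ n)⁻¹ • ι y) := by
      rw [map_add, smul_add]; rfl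
    change lp.single (E := fun _ : ℕ => WithLp 2 (X × H)) 2 n
        (WithLp.toLp 2 (x + y, ((2 : ℝ) ^ n)⁻¹ • ι (x + y))) =
      lp.single (E := fun _ : ℕ => WithLp 2 (X × H)) 2 n
        (WithLp.toLp 2 (x, ((2 : ℝ) ^ n)⁻¹ • ι x)) +
      lp.single (E := fun _ : ℕ => WithLp 2 (X × H)) 2 n
        (WithLp.toLp 2 (y, ((2 : ℝ) ^ n)⁻¹ • ι y))
    rw [e]
    exact lp.single_add 2 n _ _
  map_smul' c x := by
    apply Subtype.ext
    have e : (WithLp.toLp 2 (c • x, ((2 : ℝ) ^ n)⁻¹ • ι (c • x)) : WithLp 2 (X × H)) =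
        c • WithLp.toLp 2 (x, ((2 : ℝ) ^ n)⁻¹ • ι x) := by
      rw [map_smul, smul_comm]; rfl
    change lp.single (E := fun _ : ℕ => WithLp 2 (X × H)) 2 n
        (WithLp.toLp 2 (c • x, ((2 : ℝ) ^ n)⁻¹ • ι (c • x))) =
      c • lp.single (E := fun _ : ℕ => WithLp 2 (X × H)) 2 n
        (WithLp.toLp 2 (x, ((2 : ℝ) ^ n)⁻¹ • ι x))
    rw [e, lp.single_smul]

theorem norm_TT (ι : X →L[ℝ] H) (n : ℕ) (x : X) :
    ‖TT ι n x‖ ^ 2 = ‖x‖ ^ 2 + (((2 : ℝ) ^ n)⁻¹ * ‖ι x‖) ^ 2 := by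
  have h1 : ‖TT ι n x‖ = ‖(WithLp.toLp 2 (x, ((2 : ℝ) ^ n)⁻¹ • ι x) : WithLp 2 (X × H))‖ :=
    lp.norm_single (by norm_num) _ _
  rw [h1, prod_sq]
  change ‖x‖ ^ 2 + ‖((2 : ℝ) ^ n)⁻¹ • ι x‖ ^ 2 = _
  rw [norm_smul, norm_inv, norm_pow]
  simp

theorem normalize_apply {X Y : Type*} [NormedAddCommGroup X] [NormedSpace ℝ X]
    [NormedAddCommGroup Y] [NormedSpace ℝ Y] (T : X →L[ℝ] Y) (x : X) :
    ‖(‖T‖⁻¹ • T) x‖ = ‖T‖⁻¹ * ‖T x‖ := by
  rw [_root_.smul_apply, norm_smul, norm_inv, norm_norm]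

theorem normalize {X Y : Type*} [NormedAddCommGroup X] [NormedSpace ℝ X] [NormedAddCommGroup Y]
    [NormedSpace ℝ Y] (T : X →L[ℝ] Y) (hT : 0 < ‖T‖) : ‖‖T‖⁻¹ • T‖ = 1 := by
  rw [norm_smul, norm_inv, norm_norm, inv_mul_cancel₀ hT.ne']

/-- the normalised embeddings -/
theorem exists_T (ι : X →L[ℝ] H) [Nontrivial X] {η : ℝ} (hη : 0 < η) :
    ∃ T : X →L[ℝ] BB ι, ‖T‖ = 1 ∧ ∀ x, x ≠ 0 → (1 - η) * ‖x‖ < ‖T x‖ := by
  obtain ⟨n, hn⟩ : ∃ n : ℕ, (((2 : ℝ) ^ n)⁻¹ * ‖ι‖) ^ 2 < η := by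
    have h1 : Tendsto (fun n : ℕ => (((2 : ℝ) ^ n)⁻¹ * ‖ι‖) ^ 2) atTop (𝓝 ((0 * ‖ι‖) ^ 2)) := by
      refine Tendsto.pow (Tendsto.mul_const _ ?_) 2
      have := tendsto_pow_atTop_nhds_zero_of_lt_one (r := (1 / 2 : ℝ)) (by norm_num) (by norm_num)
      refine this.congr fun n => ?_
      rw [one_div, inv_pow]
    rw [zero_mul, zero_pow (by norm_num)] at h1
    exact (h1.eventually_lt_const hη).exists
  set c := (((2 : ℝ) ^ n)⁻¹ * ‖ι‖) ^ 2 with hc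
  have hc0 : 0 ≤ c := sq_nonneg _
  have hb : ∀ x, ‖TT ι n x‖ ≤ √(1 + c) * ‖x‖ := by
    intro x
    refine le_of_sq_le_sq (?_ : ‖TT ι n x‖ ^ 2 ≤ (√(1 + c) * ‖x‖) ^ 2) (by positivity)
    rw [norm_TT, mul_pow (√(1 + c)), Real.sq_sqrt (by positivity), hc]
    have h1 : ‖ι x‖ ≤ ‖ι‖ * ‖x‖ := ι.le_opNorm x
    have h2 : (((2 : ℝ) ^ n)⁻¹ * ‖ι x‖) ^ 2 ≤ (((2 : ℝ) ^ n)⁻¹ * (‖ι‖ * ‖x‖)) ^ 2 := by gcongr
    nlinarith
  have hlow : ∀ x, ‖x‖ ≤ ‖TT ι n x‖ := by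
    intro x
    refine le_of_sq_le_sq ?_ (norm_nonneg _)
    rw [norm_TT]
    have : 0 ≤ (((2 : ℝ) ^ n)⁻¹ * ‖ι x‖) ^ 2 := sq_nonneg _
    linarith
  set T₀ : X →L[ℝ] BB ι := (TT ι n).mkContinuous _ hb with hT₀
  have hT₀x : ∀ x, T₀ x = TT ι n x := fun x => rfl
  have hT₀le : ‖T₀‖ ≤ √(1 + c) := (TT ι n).mkContinuous_norm_le (Real.sqrt_nonneg _) hb
  obtain ⟨x₁, hx₁⟩ := exists_ne (0 : X)
  have hT₀1 : 1 ≤ ‖T₀‖ := by
    have h1 := T₀.le_opNorm x₁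
    rw [hT₀x] at h1
    have h2 := hlow x₁
    have h3 : 0 < ‖x₁‖ := norm_pos_iff.2 hx₁
    by_contra hcon
    push Not at hcon
    nlinarith
  have hpos : 0 < ‖T₀‖ := by linarith
  refine ⟨‖T₀‖⁻¹ • T₀, normalize T₀ hpos, fun x hx => ?_⟩
  · have hx0 : 0 < ‖x‖ := norm_pos_iff.2 hx
    rw [normalize_apply T₀ x, hT₀x]
    have h1 : 1 - η < ‖T₀‖⁻¹ := by
      have h2 : ‖T₀‖ < 1 + η := by
        refine hT₀le.trans_lt ?_
        rw [Real.sqrt_lt' (by positivity)]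
        nlinarith
      by_cases h3 : 1 - η ≤ 0
      · exact h3.trans_lt (inv_pos.2 hpos)
      · push Not at h3
        rw [lt_inv_comm₀ h3 hpos]
        refine h2.trans_le ?_
        rw [le_inv_comm₀ (by positivity) h3]
        rw [inv_eq_one_div, le_div_iff₀ (by positivity)]
        nlinarith
    calc (1 - η) * ‖x‖ < ‖T₀‖⁻¹ * ‖x‖ := by gcongr
      _ ≤ ‖T₀‖⁻¹ * ‖TT ι n x‖ := by
          gcongr
          exact hlow x

/-- failure of the pointwise property -/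
theorem not_pbpb {ι : X →L[ℝ] H} (hι : Function.Injective ι) (x₀ h : X) (hx₀ : ‖x₀‖ = 1)
    (hh : ‖h‖ = 1) (hflat : ∃ δ : ℝ, 0 < δ ∧ ∀ t : ℝ, 0 < t → t < δ →
      ‖x₀ + t • h‖ ^ 2 + ‖x₀ - t • h‖ ^ 2 ≤ 2 + t ^ 3) : ¬ PBPB X (BB ι) := by
  intro hP
  have hx0 : x₀ ≠ 0 := by
    intro h0
    rw [h0, norm_zero] at hx₀
    norm_num at hx₀
  have hh0 : h ≠ 0 := by
    intro h0
    rw [h0, norm_zero] at hh
    norm_num at hh
  have : Nontrivial X := ⟨x₀, 0, hx0⟩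
  obtain ⟨η, hη, h1⟩ := hP (1 / 2) (by norm_num)
  obtain ⟨T, hT1, hT2⟩ := exists_T ι (η := min η (1 / 2)) (lt_min hη (by norm_num))
  obtain ⟨S, hS1, hS2, hS3⟩ := h1 T hT1 x₀ hx₀ (by
    have h2 := hT2 x₀ hx0
    rw [hx₀, mul_one] at h2
    have := min_le_left η (1 / 2)
    linarith)
  have h3 := kill hι S hS1 x₀ h hS2 hflat
  have h4 := (S - T).le_opNorm h
  have e1 : (S - T) h = -(T h) := by
    change S h - T h = _
    rw [h3, zero_sub]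
  rw [e1, norm_neg, hh, mul_one] at h4
  have h5 := hT2 h hh0
  rw [hh, mul_one] at h5
  have := min_le_right η (1 / 2)
  linarith

/-- failure of the property with moving point -/
theorem not_bpbp {ι : X →L[ℝ] H} (hι : Function.Injective ι) (x₀ h : X) (hx₀ : ‖x₀‖ = 1)
    (hh : ‖h‖ = 1) {ρ : ℝ} (hρ : 0 < ρ) (hflat : ∀ x : X, ‖x‖ = 1 → ‖x - x₀‖ < ρ →
      ∃ δ : ℝ, 0 < δ ∧ ∀ t : ℝ, 0 < t → t < δ →
      ‖x + t • h‖ ^ 2 + ‖x - t • h‖ ^ 2 ≤ 2 + t ^ 3) : ¬ BPBp X (BB ι) := by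
  intro hP
  have hx0 : x₀ ≠ 0 := by
    intro h0
    rw [h0, norm_zero] at hx₀
    norm_num at hx₀
  have hh0 : h ≠ 0 := by
    intro h0
    rw [h0, norm_zero] at hh
    norm_num at hh
  have : Nontrivial X := ⟨x₀, 0, hx0⟩
  obtain ⟨η, hη, h1⟩ := hP (min ρ (1 / 2)) (lt_min hρ (by norm_num))
  obtain ⟨T, hT1, hT2⟩ := exists_T ι (η := min η (1 / 2)) (lt_min hη (by norm_num))
  obtain ⟨S, x, hx, hS1, hS2, hxx, hS3⟩ := h1 T hT1 x₀ hx₀ (by
    have h2 := hT2 x₀ hx0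
    rw [hx₀, mul_one] at h2
    have := min_le_left η (1 / 2)
    linarith)
  have h3 := kill hι S hS1 x h hS2 (hflat x hx (hxx.trans_le (min_le_left _ _)))
  have h4 := (S - T).le_opNorm h
  have e1 : (S - T) h = -(T h) := by
    change S h - T h = _
    rw [h3, zero_sub]
  rw [e1, norm_neg, hh, mul_one] at h4
  have h5 := hT2 h hh0
  rw [hh, mul_one] at h5
  have h6 := min_le_right η (1 / 2)
  have h7 := min_le_right ρ (1 / 2)
  linarith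

end Bad

end Q88.BP
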