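import Pool.Agent.Q88.BP.Fin

/-!
The domains `ℓ_4^2` and `ℓ_1^2`.
-/

namespace Q88.BP

open Filter Topology

open scoped ENNReal

instance fact14 : Fact ((1 : ℝ≥0∞) ≤ 4) := ⟨by norm_num⟩

abbrev L4 : Type := PiLp 4 (fun _ : Fin 2 => ℝ)

abbrev L1 : Type := PiLp 1 (fun _ : Fin 2 => ℝ)

abbrev H2 : Type := EuclideanSpace ℝ (Fin 2)

noncomputable def ι4 : L4 →L[ℝ] H2 :=
  ((PiLp.continuousLinearEquiv 4 ℝ (fun _ : Fin 2 => ℝ)).trans
    (PiLp.continuousLinearEquiv 2 ℝ (fun _ : Fin 2 => ℝ)).symm : L4 →L[ℝ] H2)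

theorem ι4_inj : Function.Injective ι4 :=
  ((PiLp.continuousLinearEquiv 4 ℝ (fun _ : Fin 2 => ℝ)).trans
    (PiLp.continuousLinearEquiv 2 ℝ (fun _ : Fin 2 => ℝ)).symm).injective

noncomputable def ι1 : L1 →L[ℝ] H2 :=
  ((PiLp.continuousLinearEquiv 1 ℝ (fun _ : Fin 2 => ℝ)).trans
    (PiLp.continuousLinearEquiv 2 ℝ (fun _ : Fin 2 => ℝ)).symm : L1 →L[ℝ] H2)

theorem ι1_inj : Function.Injective ι1 :=
  ((PiLp.continuousLinearEquiv 1 ℝ (fun _ : Fin 2 => ℝ)).trans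
    (PiLp.continuousLinearEquiv 2 ℝ (fun _ : Fin 2 => ℝ)).symm).injective

theorem norm4 (x : L4) : ‖x‖ ^ 4 = x 0 ^ 4 + x 1 ^ 4 := by
  have h1 := PiLp.norm_eq_of_nat 4 (by norm_num) x
  rw [h1, Fin.sum_univ_two]
  have h2 : ∀ a : ℝ, ‖a‖ ^ 4 = a ^ 4 := fun a => by
    rw [Real.norm_eq_abs]
    exact Even.pow_abs (by decide) a
  rw [h2, h2]
  have h3 : 0 ≤ x 0 ^ 4 + x 1 ^ 4 := by positivity
  have h4 := Real.rpow_natCast ((x 0 ^ 4 + x 1 ^ 4) ^ (1 / ((4 : ℕ) : ℝ))) 4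
  rw [← h4, ← Real.rpow_mul h3]
  norm_num

theorem norm1 (x : L1) : ‖x‖ = |x 0| + |x 1| := by
  have h1 := PiLp.norm_eq_of_nat 1 (by norm_num) x
  rw [h1, Fin.sum_univ_two]
  simp

theorem smooth4 (x : L4) (hx : ‖x‖ = 1) (f : L4 →L[ℝ] ℝ) (hf : ‖f‖ ≤ 1) (hfx : f x = 1) (h : L4) :
    f h = x 0 ^ 3 * h 0 + x 1 ^ 3 * h 1 := by
  set φ : ℝ → ℝ := fun t => (x 0 + t * h 0) ^ 4 + (x 1 + t * h 1) ^ 4 - (1 + t * f h) ^ 4 with hφ
  have h0 : x 0 ^ 4 + x 1 ^ 4 = 1 := by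
    rw [← norm4, hx, one_pow]
  have hmin : IsLocalMin φ 0 := by
    have h1 : ∀ᶠ t : ℝ in 𝓝 0, 0 < 1 + t * f h := by
      have h2 : ContinuousAt (fun t : ℝ => 1 + t * f h) 0 := by fun_prop
      have h3 : (0 : ℝ) < 1 + 0 * f h := by norm_num
      exact h2.eventually (lt_mem_nhds h3)
    filter_upwards [h1] with t ht
    have e0 : φ 0 = 0 := by
      simp [hφ, h0]
    rw [e0, hφ]
    simp only
    have h2 : 1 + t * f h ≤ ‖x + t • h‖ := by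
      have h3 := f.le_opNorm (x + t • h)
      rw [map_add, map_smul, hfx, smul_eq_mul, Real.norm_eq_abs] at h3
      have h4 : ‖f‖ * ‖x + t • h‖ ≤ 1 * ‖x + t • h‖ := by gcongr
      have := le_abs_self (1 + t * f h)
      linarith
    have h3 : (1 + t * f h) ^ 4 ≤ ‖x + t • h‖ ^ 4 := by gcongr
    rw [norm4] at h3
    have e1 : (x + t • h) 0 = x 0 + t * h 0 := rfl
    have e2 : (x + t • h) 1 = x 1 + t * h 1 := rfl
    rw [e1, e2] at h3
    linarith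
  have hd : ∀ a b : ℝ, HasDerivAt (fun t : ℝ => (a + t * b) ^ 4) (4 * a ^ 3 * b) 0 := by
    intro a b
    have h1 : HasDerivAt (fun t : ℝ => a + t * b) b 0 := by
      have := ((hasDerivAt_id (0 : ℝ)).mul_const b).const_add a
      simpa using this
    have h2 := h1.fun_pow 4
    refine h2.congr_deriv ?_
    norm_num
  have hφd : HasDerivAt φ (4 * x 0 ^ 3 * h 0 + 4 * x 1 ^ 3 * h 1 - 4 * 1 ^ 3 * f h) 0 :=
    ((hd _ _).fun_add (hd _ _)).fun_sub (hd _ _)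
  have := hmin.hasDerivAt_eq_zero hφd
  linarith

theorem fp4 : FP L4 := by
  refine fp_fin fun x hx f g hf hg hfx hgx => ?_
  ext h
  rw [smooth4 x hx f hf hfx, smooth4 x hx g hg hgx]

theorem bad4 : ¬ PBPB L4 (BB ι4) := by
  have hone : ∀ z : L4, z 0 ^ 4 + z 1 ^ 4 = 1 → ‖z‖ = 1 := by
    intro z hz
    have h1 := norm4 z
    rw [hz] at h1
    exact (pow_eq_one_iff_of_nonneg (norm_nonneg z) (by norm_num)).1 h1
  have hsq : ∀ (z : L4) (t : ℝ), z 0 ^ 4 + z 1 ^ 4 = 1 + t ^ 4 → ‖z‖ ^ 2 ≤ 1 + t ^ 4 / 2 := by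
    intro z t hz
    have h1 := norm4 z
    rw [hz] at h1
    have h2 : (‖z‖ ^ 2) ^ 2 ≤ (1 + t ^ 4 / 2) ^ 2 := by
      have e : (‖z‖ ^ 2) ^ 2 = ‖z‖ ^ 4 := by ring
      rw [e, h1]
      nlinarith [sq_nonneg (t ^ 4)]
    exact le_of_sq_le_sq h2 (by positivity)
  refine not_pbpb ι4_inj (WithLp.toLp 4 ![1, 0]) (WithLp.toLp 4 ![0, 1]) ?_ ?_ ⟨1, one_pos, ?_⟩
  · refine hone _ ?_
    simp
  · refine hone _ ?_
    simp
  · intro t ht0 ht1
    have h1 := hsq (WithLp.toLp 4 ![1, 0] + t • WithLp.toLp 4 ![0, 1]) t (by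
      change (1 + t * 0) ^ 4 + (0 + t * 1) ^ 4 = 1 + t ^ 4
      ring)
    have h2 := hsq (WithLp.toLp 4 ![1, 0] - t • WithLp.toLp 4 ![0, 1]) t (by
      change (1 - t * 0) ^ 4 + (0 - t * 1) ^ 4 = 1 + t ^ 4
      ring)
    have h3 : t ^ 4 ≤ t ^ 3 := pow_le_pow_of_le_one ht0.le ht1.le (by norm_num)
    linarith

theorem bad1 : ¬ BPBp L1 (BB ι1) := by
  refine not_bpbp ι1_inj (WithLp.toLp 1 ![1 / 2, 1 / 2]) (WithLp.toLp 1 ![1 / 2, - (1 / 2)]) ?_ ?_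
    (ρ := 1 / 4) (by norm_num) ?_
  · rw [norm1]
    change |(1 / 2 : ℝ)| + |(1 / 2 : ℝ)| = 1
    norm_num [abs_of_pos]
  · rw [norm1]
    change |(1 / 2 : ℝ)| + |(-(1 / 2) : ℝ)| = 1
    rw [abs_neg]
    norm_num [abs_of_pos]
  · intro x hx hxx
    refine ⟨1 / 4, by norm_num, fun t ht0 ht => ?_⟩
    rw [norm1] at hx hxx
    have e1 : (x - WithLp.toLp 1 ![1 / 2, 1 / 2] : L1) 0 = x 0 - 1 / 2 := rfl
    have e2 : (x - WithLp.toLp 1 ![1 / 2, 1 / 2] : L1) 1 = x 1 - 1 / 2 := rfl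
    rw [e1, e2] at hxx
    have h1 := neg_abs_le (x 0 - 1 / 2)
    have h2 := neg_abs_le (x 1 - 1 / 2)
    have h3 := abs_nonneg (x 0 - 1 / 2)
    have h4 := abs_nonneg (x 1 - 1 / 2)
    have h5 : 1 / 4 < x 0 := by linarith
    have h6 : 1 / 4 < x 1 := by linarith
    rw [abs_of_pos (by linarith), abs_of_pos (by linarith)] at hx
    have h7 : ‖x + t • (WithLp.toLp 1 ![1 / 2, - (1 / 2)] : L1)‖ = 1 := by
      rw [norm1]
      change |x 0 + t * (1 / 2)| + |x 1 + t * (-(1 / 2))| = 1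
      rw [abs_of_pos (by linarith), abs_of_pos (by linarith)]
      linarith
    have h8 : ‖x - t • (WithLp.toLp 1 ![1 / 2, - (1 / 2)] : L1)‖ = 1 := by
      rw [norm1]
      change |x 0 - t * (1 / 2)| + |x 1 - t * (-(1 / 2))| = 1
      rw [abs_of_pos (by linarith), abs_of_pos (by linarith)]
      linarith
    rw [h7, h8]
    have : 0 < t ^ 3 := by positivity
    linarith

theorem op_zero_of_subsingleton {X Y : Type*} [NormedAddCommGroup X] [NormedSpace ℝ X]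
    [NormedAddCommGroup Y] [NormedSpace ℝ Y] (T : X →L[ℝ] Y) (hT : ‖T‖ = 1) : Nontrivial Y := by
  by_contra hcon
  rw [not_nontrivial_iff_subsingleton] at hcon
  have h1 : T = 0 := by
    ext x : 1
    exact Subsingleton.elim _ _
  rw [h1, norm_zero] at hT
  norm_num at hT

theorem nontrivial_BB {X H : Type*} [NormedAddCommGroup X] [NormedSpace ℝ X] [NormedAddCommGroup H]
    [InnerProductSpace ℝ H] [Nontrivial X] (ι : X →L[ℝ] H) : Nontrivial (BB ι) := by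
  obtain ⟨T, hT, -⟩ := exists_T ι (η := 1) one_pos
  exact op_zero_of_subsingleton T hT

/-- `Y₁` is the range of a projection of norm one. -/
def OneCompl {Y : Type*} [NormedAddCommGroup Y] [NormedSpace ℝ Y] (Y₁ : Submodule ℝ Y) : Prop :=
  ∃ P : Y →L[ℝ] Y, ‖P‖ = 1 ∧ P.comp P = P ∧ LinearMap.range P.toLinearMap = Y₁

theorem oneCompl_emb (E : Type*) [NormedAddCommGroup E] [NormedSpace ℝ E] [Nontrivial E] :
    OneCompl (LinearMap.range (emb (E := E)).toLinearMap) := by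
  refine ⟨proj, norm_proj, ?_, range_proj⟩
  ext p : 1
  rfl

theorem gen1 (X E : Type) [NormedAddCommGroup X] [NormedSpace ℝ X] [NormedAddCommGroup E]
    [NormedSpace ℝ E] [CompleteSpace E] [Nontrivial E] (hX : FP X) (hE : ¬ PBPB X E) :
    ∃ (Y : Type) (_ : NormedAddCommGroup Y) (_ : NormedSpace ℝ Y) (_ : CompleteSpace Y)
      (Y₁ : Submodule ℝ Y), OneCompl Y₁ ∧ PBPB X Y ∧ ¬ PBPB X Y₁ :=
  ⟨YY E, inferInstance, inferInstance, inferInstance, _, oneCompl_emb E, pbpb_YY hX,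
    fun h => hE (PBPB.transport (emb (E := E)).equivRange h)⟩

theorem gen2 (X E : Type) [NormedAddCommGroup X] [NormedSpace ℝ X] [NormedAddCommGroup E]
    [NormedSpace ℝ E] [CompleteSpace E] [Nontrivial E] (hX : FB X) (hE : ¬ BPBp X E) :
    ∃ (Y : Type) (_ : NormedAddCommGroup Y) (_ : NormedSpace ℝ Y) (_ : CompleteSpace Y)
      (Y₁ : Submodule ℝ Y), OneCompl Y₁ ∧ BPBp X Y ∧ ¬ BPBp X Y₁ :=
  ⟨YY E, inferInstance, inferInstance, inferInstance, _, oneCompl_emb E, bpbp_YY hX,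
    fun h => hE (BPBp.transport (emb (E := E)).equivRange h)⟩

theorem q1 : ∃ (Y : Type) (_ : NormedAddCommGroup Y) (_ : NormedSpace ℝ Y) (_ : CompleteSpace Y)
      (Y₁ : Submodule ℝ Y), OneCompl Y₁ ∧ PBPB L4 Y ∧ ¬ PBPB L4 Y₁ := by
  have h1 : Nontrivial (BB ι4) := nontrivial_BB ι4
  exact gen1 L4 (BB ι4) fp4 bad4

theorem q2 : ∃ (Y : Type) (_ : NormedAddCommGroup Y) (_ : NormedSpace ℝ Y) (_ : CompleteSpace Y)
      (Y₁ : Submodule ℝ Y), OneCompl Y₁ ∧ BPBp L1 Y ∧ ¬ BPBp L1 Y₁ := by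
  have h1 : Nontrivial (BB ι1) := nontrivial_BB ι1
  exact gen2 L1 (BB ι1) fb_fin bad1

end Q88.BP
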